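import Pool.Agent.H.MP_8f6377_al.Rel
import Pool.Agent.Lib.helper13.Diamond

set_option autoImplicit false

namespace Pool.Agent.H.MP_8f6377_al

open Finset Pool.Agent.Lib.helper13.Diamond

abbrev Lt := ℕ × N × N
abbrev A := FreeAlgebra ℂ Lt

noncomputable def u (k : ℕ) (a b : N) : A := FreeAlgebra.ι ℂ (k, a, b)

noncomputable def Bs : Module.Basis (List Lt) ℂ A := FreeAlgebra.basisFreeMonoid ℂ Lt

lemma Bs_eq (l : List Lt) : Bs l = (l.map (FreeAlgebra.ι ℂ)).prod := by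
  change MonoidAlgebra.lift ℂ A (FreeMonoid Lt) (FreeMonoid.lift (FreeAlgebra.ι ℂ))
    (MonoidAlgebra.single (FreeMonoid.ofList l) 1) = _
  simp [FreeMonoid.lift_apply]

lemma hB (l l' : List Lt) : Bs (l ++ l') = Bs l * Bs l' := by simp [Bs_eq]

def rk (k : ℕ) (i : N) : ℕ := if k % 2 = 0 then i.1 else 11 - i.1
def Cv (m : List Lt) : ℕ := Nat.ofDigits 12 (m.reverse.map fun x => rk x.1 x.2.2)
def Rv (m : List Lt) : ℕ := Nat.ofDigits 12 (m.map fun x => rk (x.1 + 1) x.2.1)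

def lt (m m' : List Lt) : Prop := m.length < m'.length ∨
  (m.length = m'.length ∧ Cv m ≤ Cv m' ∧ Rv m ≤ Rv m' ∧ Cv m + Rv m < Cv m' + Rv m')

lemma wf : WellFounded lt :=
  Subrelation.wf (r := InvImage (Prod.Lex (· < ·) (· < ·)) fun m => (m.length, Cv m + Rv m))
    (fun h => Prod.lex_def.2 (h.imp_right fun h => ⟨h.1, h.2.2.2⟩))
    (InvImage.wf _ (WellFounded.prod_lex wellFounded_lt wellFounded_lt))

lemma ctx (a b m m' : List Lt) (h : lt m m') : lt (a ++ m ++ b) (a ++ m' ++ b) := by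
  rcases h with h | ⟨h1, h2, h3, h4⟩
  · left
    simpa using h
  · right
    simp only [Cv, Rv, List.reverse_append, List.map_append, Nat.ofDigits_append,
      List.length_append, List.length_map, List.length_reverse, h1] at *
    have p1 : 0 < 12 ^ a.length := by positivity
    have p2 : 0 < 12 ^ b.length := by positivity
    refine ⟨trivial, by gcongr, by gcongr, ?_⟩
    rcases h2.lt_or_eq with h | h
    · exact add_lt_add_of_lt_of_le (by gcongr) (by gcongr)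
    · exact add_lt_add_of_le_of_lt (by gcongr) (by have : _ < _ := lt_of_add_lt_add_left (h ▸ h4); gcongr)

def tt (k : ℕ) : N := if k % 2 = 0 then 11 else 0

def cl : I → N × N | .inl k => (tt k, tt k) | .inr p => Ld p.1 p.2
def rl : I → N × N | .inl k => (tt (k + 1), tt (k + 1)) | .inr p => (Ld (p.1 + 1 + 1) p.2).swap

lemma W_ne {s : ℕ} {a b c : N} (h : W s a b c ≠ 0) : Wb s a b c := by simpa [W] using h

lemma rk_al (s : ℕ) (i : N) : rk (al s) i = i := if_pos (by unfold al; omega)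
lemma rk_al2 (s : ℕ) (i : N) : rk (al s + 1 + 1) i = i := if_pos (by unfold al; omega)

lemma tt_lt (k : ℕ) {i : N} (h : i ≠ tt k) :
    12 * rk k i + rk (k + 1) i < 12 * rk k (tt k) + rk (k + 1) (tt k) := by
  have := i.2
  unfold rk tt at *
  rw [ne_eq, Fin.ext_iff] at h
  split_ifs at * <;> simp at * <;> omega

lemma cf_lead (ρ : I) : cf ρ (cl ρ).1 (cl ρ).2 = 1 := by
  rcases ρ with k | p <;> simp [cf, cl, W, F1]

lemma rf_lead (ρ : I) : rf ρ (rl ρ).1 (rl ρ).2 = 1 := by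
  rcases ρ with k | p
  · simp [rf, rl]
  · exact if_pos (by simpa [rl, Wb_succ] using F1 (p.1 + 1 + 1) p.2)

lemma cf_lt (ρ : I) {i i' : N} (h : cf ρ i i' ≠ 0) (h' : (i, i') ≠ cl ρ) :
    12 * rk (c1 ρ) i + rk (c2 ρ) i' < 12 * rk (c1 ρ) (cl ρ).1 + rk (c2 ρ) (cl ρ).2 := by
  rcases ρ with k | p
  · obtain rfl : i = i' := by simpa [cf] using h
    exact tt_lt k (by simpa [cl] using h')
  · simpa [c1, c2, rk_al, cl] using (F2 _ _ _ _ (W_ne h)).resolve_left h'

lemma rf_lt (ρ : I) {a b : N} (h : rf ρ a b ≠ 0) (h' : (a, b) ≠ rl ρ) :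
    12 * rk (r2 ρ + 1) b + rk (r1 ρ + 1) a <
      12 * rk (r2 ρ + 1) (rl ρ).2 + rk (r1 ρ + 1) (rl ρ).1 := by
  rcases ρ with k | p
  · obtain rfl : a = b := by simpa [rf] using h
    exact tt_lt (k + 1) (by simpa [rl] using h')
  · simpa [r1, r2, rk_al2, rl] using (F2 (p.1 + 1 + 1) p.2 b a (by
      simpa [Wb_succ] using W_ne h)).resolve_left fun e => h' (congrArg Prod.swap e)

abbrev R := (I ⊕ I) × N × N

def x : R → Lt
  | (.inl ρ, a, _) => (c1 ρ, a, (cl ρ).1)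
  | (.inr σ, i, _) => (r1 σ, (rl σ).1, i)

def y : R → Lt
  | (.inl ρ, _, b) => (c2 ρ, b, (cl ρ).2)
  | (.inr σ, _, i) => (r2 σ, (rl σ).2, i)

noncomputable def rel : R → A
  | (.inl ρ, a, b) => crel u ρ a b
  | (.inr σ, i, i') => rrel u σ i i'

lemma lead2 {S : Submodule ℂ A} (v : N → N → A) (c : N → N → ℂ) (p : N × N) (h1 : c p.1 p.2 = 1)
    (h : ∀ i i', c i i' ≠ 0 → (i, i') ≠ p → v i i' ∈ S) :
    v p.1 p.2 - ∑ i, ∑ i', c i i' • v i i' ∈ S := by
  rw [← sum_product', ← add_sum_erase _ _ (show p ∈ _ by simp), h1, one_smul, sub_add_cancel_left]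
  refine neg_mem (S.sum_mem fun q hq => ?_)
  by_cases e : c q.1 q.2 = 0
  · simp [e]
  · exact S.smul_mem _ (h _ _ e (ne_of_mem_erase hq))

lemma lead1 {S : Submodule ℂ A} (v : N → A) (p : N) (h : ∀ i, i ≠ p → v i ∈ S) :
    v p - ∑ i, v i ∈ S := by
  rw [← add_sum_erase _ _ (mem_univ p), sub_add_cancel_left]
  exact neg_mem (S.sum_mem fun q hq => h _ (ne_of_mem_erase hq))

lemma h1 (ρ : R) : Bs [x ρ, y ρ] - rel ρ ∈ Low (k := ℂ) Bs lt [x ρ, y ρ] := by
  have k0 : ∀ (a b : N) p q, (if a = b then 1 else 0 : A) ∈ Low (k := ℂ) Bs lt [p, q] := by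
    intro a b p q
    split_ifs
    · exact Submodule.subset_span ⟨[], .inl (by simp), by simp [Bs_eq]⟩
    · exact zero_mem _
  have k1 : ∀ k a b p q, u k a b ∈ Low (k := ℂ) Bs lt [p, q] := fun k a b p q =>
    Submodule.subset_span ⟨[(k, a, b)], .inl (by simp), by simp [Bs_eq, u]⟩
  rcases ρ with ⟨ρ | ρ, a, b⟩
  · simp only [rel, crel, Bs_eq, List.map, List.prod_cons, List.prod_nil, mul_one, ← sub_add]
    refine add_mem (lead2 (fun i i' => u (c1 ρ) a i * u (c2 ρ) b i') _ _ (cf_lead ρ)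
      fun i i' e e' => Submodule.subset_span ⟨[(c1 ρ, a, i), (c2 ρ, b, i')], .inr ?_,
        by simp [Bs_eq, u]⟩) ?_
    · have := cf_lt ρ e e'
      simp [Cv, Rv, Nat.ofDigits, x, y]
      omega
    · rcases ρ with k | p
      exacts [k0 _ _ _ _, Submodule.sum_mem _ fun _ _ => Submodule.smul_mem _ _ (k1 _ _ _ _ _)]
  · simp only [rel, rrel, Bs_eq, List.map, List.prod_cons, List.prod_nil, mul_one, ← sub_add]
    refine add_mem (lead2 (fun i i' => u (r1 ρ) i a * u (r2 ρ) i' b) _ _ (rf_lead ρ)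
      fun i i' e e' => Submodule.subset_span ⟨[(r1 ρ, i, a), (r2 ρ, i', b)], .inr ?_,
        by simp [Bs_eq, u]⟩) ?_
    · have := rf_lt ρ e e'
      simp [Cv, Rv, Nat.ofDigits, x, y]
      omega
    · rcases ρ with k | p
      exacts [k0 _ _ _ _, Submodule.sum_mem _ fun _ _ => Submodule.smul_mem _ _ (k1 _ _ _ _ _)]

lemma md {s s' : ℕ} : (s : ZMod 3) = s' ↔ s % 3 = s' % 3 := ZMod.natCast_eq_natCast_iff' s s' 3

lemma h2 (ρ ρ' : R) (hx : x ρ = x ρ') (hy : y ρ = y ρ') : ρ = ρ' := by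
  rcases ρ with ⟨(k | ⟨s, j⟩) | (k | ⟨s, j⟩), a, b⟩ <;>
    rcases ρ' with ⟨(k' | ⟨s', j'⟩) | (k' | ⟨s', j'⟩), a', b'⟩ <;>
    simp only [x, y, c1, c2, r1, r2, cl, rl, al, Prod.mk.injEq, Prod.fst_swap, Prod.snd_swap]
      at hx hy <;> try omega
  · simp [hx.1, hx.2.1, hy.2.1]
  · rcases F3 _ _ _ _ (Prod.ext hx.2.2 hy.2.2) with ⟨e, rfl⟩ | ⟨e, e'⟩
    · obtain rfl : s = s' := by have := md.1 e; omega
      simp [hx.2.1, hy.2.1]
    · have := mt md.2 e
      rcases e' with e' | e' <;> have := (md (s' := 1)).1 (by simpa using e') <;> omega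
  · simp [hy.1, hx.2.2, hy.2.2]
  · rcases F3 _ _ _ _ (Prod.ext hy.2.1 hx.2.1) with ⟨e, rfl⟩ | ⟨e, e'⟩
    · obtain rfl : s = s' := by have := md.1 (by simpa using e); omega
      simp [hx.2.2, hy.2.2]
    · have := mt md.2 (by simpa using e : (s : ZMod 3) ≠ s')
      rcases e' with e' | e' <;>
        have := (md (s := _ + 1 + 1) (s' := 1)).1 (by simpa using e') <;> omega

lemma JL {ρ : R} {z : Lt} {m : List Lt} (h : lt [x ρ, y ρ, z] m) :
    rel ρ * FreeAlgebra.ι ℂ z ∈ J (k := ℂ) Bs lt x y rel m :=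
  Submodule.subset_span ⟨[], ρ, [z], h, by simp [Bs_eq]⟩

lemma JR {ρ : R} {z : Lt} {m : List Lt} (h : lt [z, x ρ, y ρ] m) :
    FreeAlgebra.ι ℂ z * rel ρ ∈ J (k := ℂ) Bs lt x y rel m :=
  Submodule.subset_span ⟨[z], ρ, [], h, by simp [Bs_eq]⟩

lemma J0 (p q r : Lt) : All u (J (k := ℂ) Bs lt x y rel [p, q, r]) := fun ρ a b =>
  ⟨Submodule.subset_span ⟨[], (.inl ρ, a, b), [], .inl (by simp), by simp [Bs_eq, rel]⟩,
    Submodule.subset_span ⟨[], (.inr ρ, a, b), [], .inl (by simp), by simp [Bs_eq, rel]⟩⟩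

lemma comb {S : Submodule ℂ A} {a b c d : A} (h1 : a - c ∈ S) (h2 : b - d ∈ S) (h3 : c - d ∈ S) :
    a - b ∈ S := by
  convert add_mem (sub_mem h1 h2) h3 using 1
  abel

lemma h3 (ρ ρ' : R) (h : y ρ = x ρ') : rel ρ * Bs [y ρ'] - Bs [x ρ] * rel ρ' ∈
    J (k := ℂ) Bs lt x y rel [x ρ, y ρ, y ρ'] := by
  simp only [Bs_eq, List.map, List.prod_cons, List.prod_nil, mul_one]
  rcases ρ with ⟨ρ | ρ, a, b⟩ <;> rcases ρ' with ⟨ρ' | ρ', a', b'⟩ <;>
    simp only [x, y, Prod.mk.injEq] at h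
  · obtain ⟨h, rfl, h'⟩ := h
    rcases ρ with k | ⟨s, z⟩ <;> rcases ρ' with k' | ⟨s', w⟩ <;>
      simp only [c1, c2, cl, tt, al] at h h'
    · subst h
      split_ifs at h' <;> first | omega | simp at h'
    · exact absurd (h'.symm.trans (if_neg (by omega))) (F4 _ _).1
    · exact absurd (h'.trans (if_pos (by omega))) (F4 _ _).2
    obtain ⟨e, e1, e2, e3, e4⟩ := F5 _ _ _ _ h'
    obtain rfl : s' = s + 1 := by have := (md (s' := s + 1)).1 (by simpa using e); omega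
    simp only [x, y, rel, cl, c1, c2, e1, e2]
    refine comb (lead1 (fun z => crel u (.inr (s, z)) a b * u (al (s + 3)) b' z) _ fun i e =>
      JL (ρ := (.inl (.inr (s, i)), a, b)) (.inr ?_)) (lead1 (fun x => u (al (s + 1)) a x *
      crel u (.inr (s + 1, x)) b b') _ fun i e => JR (ρ := (.inl (.inr (s + 1, i)), b, b'))
      (.inr ?_)) (CC (J0 _ _ _) s a b b')
    · have := e3 i e
      simp [Cv, Rv, Nat.ofDigits, x, y, c1, c2, cl, rk_al, h'] at this ⊢
      omega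
    · have := e4 i e
      simp [Cv, Rv, Nat.ofDigits, x, y, c1, c2, cl, rk_al, h'] at this ⊢
      omega
  · obtain ⟨h, rfl, rfl⟩ := h
    refine comb (lead2 (fun b c => crel u ρ a b * u (r2 ρ') c b') _ _ (rf_lead ρ') fun i i' e e' =>
      JL (ρ := (.inl ρ, a, i)) (.inr ?_)) (lead2 (fun i i' => u (c1 ρ) a i * rrel u ρ' i' b') _ _
      (cf_lead ρ) fun i i' e e' => JR (ρ := (.inr ρ', i', b')) (.inr ?_)) (E2 (J0 _ _ _) ρ ρ' h a b')
    · have := rf_lt ρ' e e'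
      simp [Cv, Rv, Nat.ofDigits, x, y, h]
      omega
    · have := cf_lt ρ e e'
      simp [Cv, Rv, Nat.ofDigits, x, y, ← h]
      omega
  · obtain ⟨h, rfl, rfl⟩ := h
    refine comb (lead2 (fun i i' => rrel u ρ a i * u (c2 ρ') b' i') _ _ (cf_lead ρ') fun i i' e e' =>
      JL (ρ := (.inr ρ, a, i)) (.inr ?_)) (lead2 (fun i i' => u (r1 ρ) i a * crel u ρ' i' b') _ _
      (rf_lead ρ) fun i i' e e' => JR (ρ := (.inl ρ', i', b')) (.inr ?_)) (E1 (J0 _ _ _) ρ ρ' h a b')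
    · have := cf_lt ρ' e e'
      simp [Cv, Rv, Nat.ofDigits, x, y, h]
      omega
    · have := rf_lt ρ e e'
      simp [Cv, Rv, Nat.ofDigits, x, y, ← h]
      omega
  · obtain ⟨h, h', rfl⟩ := h
    rcases ρ with k | ⟨s, z⟩ <;> rcases ρ' with k' | ⟨s', w⟩ <;>
      simp only [r1, r2, rl, tt, al, Prod.fst_swap, Prod.snd_swap] at h h'
    · subst h
      split_ifs at h' <;> first | omega | simp at h'
    · exact absurd (h'.symm.trans (if_pos (by omega))) (F4 _ _).2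
    · exact absurd (h'.trans (if_neg (by omega))) (F4 _ _).1
    obtain ⟨e, e1, e2, e3, e4⟩ := F5 _ _ _ _ h'.symm
    obtain rfl : s = s' + 1 := by have := (md (s' := s' + 1)).1 (by simpa using e); omega
    simp only [x, y, rel, rl, r1, r2, e1, e2, Prod.fst_swap, Prod.snd_swap]
    refine comb (lead1 (fun x => rrel u (.inr (s' + 1, x)) a b * u (al s' + 1) x b') _ fun i e =>
      JL (ρ := (.inr (.inr (s' + 1, i)), a, b)) (.inr ?_)) (lead1 (fun z => u (al (s' + 2) + 1) z a *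
      rrel u (.inr (s', z)) b b') _ fun i e => JR (ρ := (.inr (.inr (s', i)), b, b'))
      (.inr ?_)) (RR (J0 _ _ _) s' a b b')
    · have := e4 i e
      simp [Cv, Rv, Nat.ofDigits, x, y, r1, r2, rl, rk_al2] at this ⊢
      omega
    · have := e3 i e
      simp [Cv, Rv, Nat.ofDigits, x, y, r1, r2, rl, rk_al2] at this ⊢
      omega

lemma exφ : ∃ φ : A →ₗ[ℂ] ℂ, φ (u 0 0 9 * u 0 0 1) = 1 ∧ ∀ a ρ b, φ (a * rel ρ * b) = 0 := by
  have := diamond Bs hB wf ctx h1 h2 h3 [(0, 0, 9), (0, 0, 1)] fun a ρ b e => by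
    have hl := congrArg List.length e
    simp only [List.length_cons, List.length_append, List.length_nil] at hl
    obtain rfl : a = [] := List.length_eq_zero_iff.1 (by omega)
    simp only [List.nil_append, List.cons.injEq] at e
    obtain ⟨e1, e2, -⟩ := e
    rcases ρ with ⟨(k | ⟨s, j⟩) | (k | ⟨s, j⟩), a, b⟩ <;>
      simp only [x, y, c1, c2, r1, r2, cl, al, Prod.mk.injEq] at e1 e2 <;> try omega
    obtain rfl : s = 0 := by omega
    exact F7.2.2 j (Prod.ext e1.2.2.symm e2.2.2.symm)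
  simpa [Bs_eq, u] using this

end Pool.Agent.H.MP_8f6377_al
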