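import Pool.Agent.H.MP_8f6377_al.Conf

set_option autoImplicit false
set_option linter.dupNamespace false

namespace Pool.Agent.H.MP_8f6377_al

open Finset TensorProduct

def Id : Ideal A := Ideal.span {t | ∃ ρ b, t = rel ρ * b}

instance : Id.IsTwoSided := ⟨fun b h => by
  induction h using Submodule.span_induction with
  | mem t h =>
    obtain ⟨ρ, c, rfl⟩ := h
    exact Ideal.subset_span ⟨ρ, c * b, mul_assoc ..⟩
  | zero => simp
  | add _ _ _ _ h h' => simpa [add_mul] using add_mem h h'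
  | smul c _ _ h => simpa [mul_assoc] using Id.mul_mem_left c h⟩

def H : Type := A ⧸ Id

noncomputable instance : Ring H := inferInstanceAs (Ring (A ⧸ Id))
noncomputable instance : Algebra ℂ H := inferInstanceAs (Algebra ℂ (A ⧸ Id))

noncomputable def mk : A →ₐ[ℂ] H := Ideal.Quotient.mkₐ ℂ Id

noncomputable def g (k : ℕ) (a b : N) : H := mk (u k a b)

section
variable {B B' : Type} [Ring B] [Algebra ℂ B] [Ring B'] [Algebra ℂ B']

def Good (Y : ℕ → N → N → B) : Prop := ∀ ρ a b, crel Y ρ a b = 0 ∧ rrel Y ρ a b = 0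

lemma map_crel (f : B →ₐ[ℂ] B') (Y : ℕ → N → N → B) (ρ : I) (a b : N) :
    f (crel Y ρ a b) = crel (fun k a b => f (Y k a b)) ρ a b := by
  rcases ρ with k | p <;> simp [crel, clo, apply_ite f]

lemma map_rrel (f : B →ₐ[ℂ] B') (Y : ℕ → N → N → B) (ρ : I) (a b : N) :
    f (rrel Y ρ a b) = rrel (fun k a b => f (Y k a b)) ρ a b := by
  rcases ρ with k | p <;> simp [rrel, rlo, apply_ite f]

noncomputable def lf (Y : ℕ → N → N → B) (h : Good Y) : H →ₐ[ℂ] B :=
  Ideal.Quotient.liftₐ Id (FreeAlgebra.lift ℂ fun x : Lt => Y x.1 x.2.1 x.2.2) fun t ht => by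
    refine (Ideal.span_le (I := RingHom.ker _)).2 ?_ ht
    rintro _ ⟨⟨ρ | ρ, a, b⟩, c, rfl⟩
    · simp [rel, map_crel, u, (h ρ a b).1]
    · simp [rel, map_rrel, u, (h ρ a b).2]

@[simp] lemma lf_g (Y : ℕ → N → N → B) (h : Good Y) (k : ℕ) (p q : N) :
    lf Y h (g k p q) = Y k p q := FreeAlgebra.lift_ι_apply _ _

end

lemma good_g : Good g := fun ρ a b =>
  ⟨(map_crel mk u ρ a b).symm.trans (Ideal.Quotient.eq_zero_iff_mem.2
      (Ideal.subset_span ⟨(.inl ρ, a, b), 1, (mul_one _).symm⟩)),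
    (map_rrel mk u ρ a b).symm.trans (Ideal.Quotient.eq_zero_iff_mem.2
      (Ideal.subset_span ⟨(.inr ρ, a, b), 1, (mul_one _).symm⟩))⟩

lemma H_ind {P : H → Prop} (a : H) (h0 : ∀ c, P (algebraMap ℂ H c))
    (h1 : ∀ r p q, P (g r p q)) (hm : ∀ a b, P a → P b → P (a * b))
    (ha : ∀ a b, P a → P b → P (a + b)) : P a := by
  obtain ⟨a, rfl⟩ : ∃ b, mk b = a := Ideal.Quotient.mkₐ_surjective ℂ Id a
  induction a using FreeAlgebra.induction with
  | grade0 c => rw [AlgHom.commutes]; exact h0 c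
  | grade1 x => exact h1 x.1 x.2.1 x.2.2
  | mul a b p q => rw [map_mul]; exact hm _ _ p q
  | add a b p q => rw [map_add]; exact ha _ _ p q

lemma H_ext {B : Type} [Semiring B] [Algebra ℂ B] {f f' : H →ₐ[ℂ] B}
    (h : ∀ r p q, f (g r p q) = f' (g r p q)) : f = f' := AlgHom.ext fun a =>
  H_ind (P := fun a => f a = f' a) a (fun c => by simp) h (fun a b p q => by simp [p, q])
    fun a b p q => by simp [p, q]

lemma hc (ρ : I) (a b : N) :
    ∑ i, ∑ i', cf ρ i i' • (g (c1 ρ) a i * g (c2 ρ) b i') = clo g ρ a b :=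
  sub_eq_zero.1 (good_g ρ a b).1

lemma hr (σ : I) (i i' : N) :
    ∑ a, ∑ b, rf σ a b • (g (r1 σ) a i * g (r2 σ) b i') = rlo g σ i i' :=
  sub_eq_zero.1 (good_g σ i i').2

lemma gA (r : ℕ) (p q : N) : ∑ l, g r p l * g (r + 1) q l = if p = q then 1 else 0 := by
  simpa [cf, c1, c2, clo] using hc (.inl r) p q

lemma gB (r : ℕ) (p q : N) : ∑ l, g (r + 1) l p * g r l q = if p = q then 1 else 0 := by
  simpa [rf, r1, r2, rlo] using hr (.inl r) p q

noncomputable def cm : H →ₐ[ℂ] H ⊗[ℂ] H := lf (fun r p q => ∑ l, g r p l ⊗ₜ g r l q) fun ρ a b => by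
  constructor
  · simp only [crel, sum_mul_sum, Algebra.TensorProduct.tmul_mul_tmul, smul_sum, sub_eq_zero]
    rw [sum4]
    simp only [← tmul_smul, ← tmul_sum, hc]
    rcases ρ with k | ⟨s, j⟩
    · simp [clo, tmul_ite, ← sum_tmul, c1, c2, gA, ite_tmul, Algebra.TensorProduct.one_def]
    · simp only [clo, tmul_sum, smul_sum, ← smul_tmul]
      rw [sum3, sum_comm (f := fun x y => W s x a b • _)]
      refine sum_congr rfl fun j' _ => ?_
      simp only [← sum_tmul, smul_tmul']
      exact congrArg (· ⊗ₜ[ℂ] g (al s + 1) j' j) (hc (.inr (s, j')) a b)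
  · simp only [rrel, sum_mul_sum, Algebra.TensorProduct.tmul_mul_tmul, smul_sum, sub_eq_zero]
    rw [sum4]
    simp only [smul_tmul', ← sum_tmul, hr]
    rcases ρ with k | ⟨s, j⟩
    · simp [rlo, tmul_ite, ← tmul_sum, r1, r2, gB, ite_tmul, Algebra.TensorProduct.one_def]
    · simp only [rlo, sum_tmul, smul_sum, smul_tmul]
      rw [sum3, sum_comm (f := fun x y => W s b a x • _)]
      refine sum_congr rfl fun j' _ => ?_
      simp only [← tmul_sum, ← tmul_smul]
      exact congrArg (_ ⊗ₜ[ℂ] ·) (hr (.inr (s, j')) a b)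

noncomputable def cu : H →ₐ[ℂ] ℂ := lf (fun _ p q => if p = q then 1 else 0) fun ρ a b => by
  rcases ρ with k | p <;> simp [crel, rrel, cf, rf, clo, rlo]

lemma cm_g (r : ℕ) (p q : N) : cm (g r p q) = ∑ l, g r p l ⊗ₜ g r l q := lf_g _ _ _ _ _
lemma cu_g (r : ℕ) (p q : N) : cu (g r p q) = if p = q then 1 else 0 := lf_g _ _ _ _ _

noncomputable instance : Bialgebra ℂ H := Bialgebra.ofAlgHom cm cu
  (H_ext fun r p q => by
    simp only [AlgHom.comp_apply, cm_g, map_sum, Algebra.TensorProduct.map_tmul, AlgHom.id_apply,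
      sum_tmul, tmul_sum]
    rw [sum_comm]; rfl)
  (H_ext fun r p q => by simp [cm_g, cu_g, ite_tmul])
  (H_ext fun r p q => by simp [cm_g, cu_g, tmul_ite])

open MulOpposite in
noncomputable def an : H →ₐ[ℂ] Hᵐᵒᵖ := lf (fun r p q => op (g (r + 1) q p)) fun ρ a b => by
  rcases ρ with k | ⟨s, j⟩
  · simp [crel, rrel, cf, rf, clo, rlo, c1, c2, r1, r2, ← op_mul, ← Finset.op_sum, gA, gB,
      apply_ite op, eq_comm]
  constructor
  · refine .trans ?_ (congrArg op (good_g (.inr (s + 1, j)) b a).2)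
    simp only [crel, rrel, cf, rf, clo, rlo, c1, c2, r1, r2, op_sub, Finset.op_sum, op_smul, op_mul,
      W_succ, add_assoc, Nat.reduceAdd, al3]
    rw [sum_comm]
  · refine .trans ?_ (congrArg op (good_g (.inr (s + 1 + 1, j)) b a).1)
    simp only [crel, rrel, cf, rf, clo, rlo, c1, c2, r1, r2, op_sub, Finset.op_sum, op_smul, op_mul,
      W_succ]
    simp only [add_assoc, Nat.reduceAdd, al3]
    rw [sum_comm]

noncomputable def S : H →ₗ[ℂ] H := (MulOpposite.opLinearEquiv ℂ).symm.toLinearMap ∘ₗ an.toLinearMap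

lemma S_g (r : ℕ) (p q : N) : S (g r p q) = g (r + 1) q p :=
  congrArg MulOpposite.unop (show an (g r p q) = .op (g (r + 1) q p) from lf_g _ _ r p q)
lemma S_mul (a b : H) : S (a * b) = S b * S a := by simp [S]
lemma S_one : S 1 = 1 := by simp [S]

noncomputable instance : HopfAlgebra ℂ H where
  antipode := S
  mul_antipode_rTensor_comul := LinearMap.ext fun a => by
    change LinearMap.mul' ℂ H (S.rTensor H (cm a)) = algebraMap ℂ H (cu a)
    have k : ∀ (t : H ⊗[ℂ] H) b c, LinearMap.mul' ℂ H (S.rTensor H (t * b ⊗ₜ c)) =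
        S b * LinearMap.mul' ℂ H (S.rTensor H t) * c := fun t b c => by
      induction t <;> simp_all [S_mul, mul_assoc, add_mul, mul_add]
    induction a using H_ind
    on_goal 4 => simp [*]
    on_goal 3 => rename_i a b p q
    · simp [Algebra.algebraMap_eq_smul_one, Algebra.TensorProduct.one_def, S_one]
    · simp [cm_g, cu_g, S_g, gB, apply_ite (algebraMap ℂ H)]
    · rw [map_mul cm, map_mul cu, map_mul (algebraMap ℂ H), ← q]
      induction cm b with
      | zero => simp
      | add x y h1 h2 => simp only [mul_add, map_add, h1, h2]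
      | tmul x y => rw [k, p, ← Algebra.commutes]; simp [mul_assoc]
  mul_antipode_lTensor_comul := LinearMap.ext fun a => by
    change LinearMap.mul' ℂ H (S.lTensor H (cm a)) = algebraMap ℂ H (cu a)
    have k : ∀ (t : H ⊗[ℂ] H) b c, LinearMap.mul' ℂ H (S.lTensor H (b ⊗ₜ c * t)) =
        b * LinearMap.mul' ℂ H (S.lTensor H t) * S c := fun t b c => by
      induction t <;> simp_all [S_mul, mul_assoc, add_mul, mul_add]
    induction a using H_ind
    on_goal 4 => simp [*]
    on_goal 3 => rename_i a b p q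
    · simp [Algebra.algebraMap_eq_smul_one, Algebra.TensorProduct.one_def, S_one]
    · simp [cm_g, cu_g, S_g, gA, apply_ite (algebraMap ℂ H)]
    · rw [map_mul cm, map_mul cu, map_mul (algebraMap ℂ H), ← p]
      induction cm a with
      | zero => simp
      | add x y h1 h2 => simp only [add_mul, map_add, h1, h2]
      | tmul x y => rw [k, q, mul_assoc, Algebra.commutes]; simp [mul_assoc]

lemma c_ne : g 0 0 9 * g 0 0 1 ≠ 0 := fun h => by
  obtain ⟨φ, h1, h2⟩ := exφ
  have k : ∀ t ∈ Id, ∀ a, φ (a * t) = 0 := fun t ht => by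
    induction ht using Submodule.span_induction with
    | mem t h =>
      obtain ⟨ρ, c, rfl⟩ := h
      exact fun a => mul_assoc a _ _ ▸ h2 a ρ c
    | zero => simp
    | add _ _ _ _ h h' => simp [mul_add, h, h']
    | smul c _ _ h => simp [← mul_assoc, h]
  simpa [h1] using k _ (Ideal.Quotient.eq_zero_iff_mem.1 ((map_mul mk _ _).trans h)) 1

lemma S_c : S (g 0 0 9 * g 0 0 1) = 0 := by
  have := hr (.inr (0, 5)) 0 0
  simp only [rf, rlo, r1, r2, W, Nat.cast_zero, F7.1, F7.2.1, ← sum_product', Prod.mk.eta,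
    decide_eq_true_eq, ite_smul, one_smul, zero_smul, sum_ite_eq'] at this
  simpa [S_mul, S_g, al] using this

lemma g_mem (k : ℕ) : ∀ a b, g k a b ∈ Algebra.adjoin ℂ (Set.range fun p : N × N => g 0 p.1 p.2) := by
  induction k with
  | zero => exact fun a b => Algebra.subset_adjoin ⟨(a, b), rfl⟩
  | succ k ih =>
    intro a b
    obtain ⟨m, rfl | rfl⟩ := Nat.even_or_odd' k
    · obtain ⟨p, q, h⟩ := F6 a
      have e := hc (.inr (3 * m, b)) p q
      have e0 : ((3 * m : ℕ) : ZMod 3) = 0 := (md (s' := 0)).2 (by omega)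
      simp only [clo, c1, c2, W, e0, h, show al (3 * m) = 2 * m by unfold al; omega,
        show al (3 * m + 1) = 2 * m by unfold al; omega,
        show al (3 * m + 2) = 2 * m by unfold al; omega, decide_eq_true_eq, ite_smul, one_smul,
        zero_smul, sum_ite_eq', mem_univ, if_true] at e
      rw [← e]
      exact sum_mem fun _ _ => sum_mem fun _ _ => Subalgebra.smul_mem _ (mul_mem (ih _ _) (ih _ _)) _
    · obtain ⟨p, q, h⟩ := F6 b
      have e := hr (.inr (3 * m + 1, a)) q p
      have e0 : ((3 * m : ℕ) : ZMod 3) = 0 := (md (s' := 0)).2 (by omega)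
      simp only [rlo, r1, r2, W_succ] at e
      simp only [W, e0, h, show al (3 * m + 1) = 2 * m by unfold al; omega,
        show al (3 * m + 1 + 1) = 2 * m by unfold al; omega,
        show al (3 * m + 1 + 2) = 2 * m + 1 + 1 by unfold al; omega, decide_eq_true_eq, ite_smul,
        one_smul, zero_smul, sum_ite_eq', mem_univ, if_true] at e
      rw [← e]
      exact sum_mem fun _ _ => sum_mem fun _ _ => Subalgebra.smul_mem _ (mul_mem (ih _ _) (ih _ _)) _

end Pool.Agent.H.MP_8f6377_al
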