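import Pool.Agent.H.MP_8f6377_al.W

set_option autoImplicit false

namespace Pool.Agent.H.MP_8f6377_al

open Finset

def al (s : ℕ) : ℕ := 2 * (s / 3)

lemma al3 (s : ℕ) : al (s + 3) = al s + 2 := by unfold al; omega

noncomputable def W (s : ℕ) (a b c : N) : ℂ := if Wb s a b c then 1 else 0

lemma W_succ (s : ℕ) (a b c : N) : W (s + 1) a b c = W s c a b := by
  simp only [W, Nat.cast_add, Nat.cast_one, Wb_succ]

/-- index of the column rules and of the row rules -/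
abbrev I := ℕ ⊕ ℕ × N

def c1 : I → ℕ | .inl k => k | .inr p => al (p.1 + 1)
def c2 : I → ℕ | .inl k => k + 1 | .inr p => al (p.1 + 2)
def r1 : I → ℕ | .inl k => k + 1 | .inr p => al (p.1 + 1) + 1
def r2 : I → ℕ | .inl k => k | .inr p => al p.1 + 1

noncomputable def cf : I → N → N → ℂ
  | .inl _, i, i' => if i = i' then 1 else 0
  | .inr p, i, i' => W p.1 p.2 i i'

noncomputable def rf : I → N → N → ℂ
  | .inl _, a, b => if a = b then 1 else 0
  | .inr p, a, b => W p.1 b a p.2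

variable {B : Type} [Ring B] [Algebra ℂ B] (Y : ℕ → N → N → B)

noncomputable def clo : I → N → N → B
  | .inl _, a, b => if a = b then 1 else 0
  | .inr p, a, b => ∑ j, W p.1 j a b • Y (al p.1 + 1) j p.2

noncomputable def rlo : I → N → N → B
  | .inl _, i, i' => if i = i' then 1 else 0
  | .inr p, i, i' => ∑ z, W p.1 i' i z • Y (al (p.1 + 2)) p.2 z

noncomputable def crel (ρ : I) (a b : N) : B :=
  ∑ i, ∑ i', cf ρ i i' • (Y (c1 ρ) a i * Y (c2 ρ) b i') - clo Y ρ a b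

noncomputable def rrel (σ : I) (i i' : N) : B :=
  ∑ a, ∑ b, rf σ a b • (Y (r1 σ) a i * Y (r2 σ) b i') - rlo Y σ i i'

lemma sum3 {M : Type} [AddCommMonoid M] (f : N → N → N → M) :
    ∑ a, ∑ b, ∑ c, f a b c = ∑ c, ∑ a, ∑ b, f a b c := by
  rw [sum_congr rfl fun _ _ => sum_comm, sum_comm]

lemma sum4 {M : Type} [AddCommMonoid M] (f : N → N → N → N → M) :
    ∑ a, ∑ b, ∑ c, ∑ d, f a b c d = ∑ c, ∑ d, ∑ a, ∑ b, f a b c d := by
  rw [sum3]
  exact sum_congr rfl fun _ _ => sum3 _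

lemma D1 (σ ρ : I) (h : r2 σ = c1 ρ) (i0 c : N) :
    ∑ i, ∑ i', cf ρ i i' • (rrel Y σ i0 i * Y (c2 ρ) c i') -
      ∑ a, ∑ b, rf σ a b • (Y (r1 σ) a i0 * crel Y ρ b c) =
    ∑ a, ∑ b, rf σ a b • (Y (r1 σ) a i0 * clo Y ρ b c) -
      ∑ i, ∑ i', cf ρ i i' • (rlo Y σ i0 i * Y (c2 ρ) c i') := by
  simp only [rrel, crel, sub_mul, mul_sub, sum_mul, mul_sum, smul_sub, smul_sum, sum_sub_distrib,
    smul_mul_assoc, mul_smul_comm, mul_assoc, h]
  rw [sum4]
  simp only [smul_comm (cf ρ _ _) (rf σ _ _)]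
  abel

lemma D2 (ρ σ : I) (h : c2 ρ = r1 σ) (a i0 : N) :
    ∑ b, ∑ c, rf σ b c • (crel Y ρ a b * Y (r2 σ) c i0) -
      ∑ i, ∑ i', cf ρ i i' • (Y (c1 ρ) a i * rrel Y σ i' i0) =
    ∑ i, ∑ i', cf ρ i i' • (Y (c1 ρ) a i * rlo Y σ i' i0) -
      ∑ b, ∑ c, rf σ b c • (clo Y ρ a b * Y (r2 σ) c i0) := by
  simp only [rrel, crel, sub_mul, mul_sub, sum_mul, mul_sum, smul_sub, smul_sum, sum_sub_distrib,
    smul_mul_assoc, mul_smul_comm, mul_assoc, h]
  rw [sum4]
  simp only [smul_comm (cf ρ _ _) (rf σ _ _)]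
  abel

/-- all relations lie in `S` -/
def All (S : Submodule ℂ B) : Prop := ∀ ρ a b, crel Y ρ a b ∈ S ∧ rrel Y ρ a b ∈ S

variable {Y} {S : Submodule ℂ B}

lemma E1 (H : All Y S) (σ ρ : I) (h : r2 σ = c1 ρ) (i0 c : N) :
    ∑ i, ∑ i', cf ρ i i' • (rrel Y σ i0 i * Y (c2 ρ) c i') -
      ∑ a, ∑ b, rf σ a b • (Y (r1 σ) a i0 * crel Y ρ b c) ∈ S := by
  rw [D1 Y σ ρ h]
  rcases σ with k | ⟨s, z⟩ <;> rcases ρ with k' | ⟨s', j⟩ <;> simp only [r2, c1] at h
  · simp [rf, cf, clo, rlo, r1, c2, h]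
  · convert (H (.inr (s', c)) i0 j).2 using 1
    simp only [rrel, rf, cf, clo, rlo, r1, r2, c2, h, ite_smul, one_smul, zero_smul, sum_ite_eq,
      mem_univ, if_true, mul_sum, mul_smul_comm, ite_mul, one_mul, zero_mul, smul_ite, smul_zero,
      sum_ite_irrel, sum_const_zero]
  · convert neg_mem (H (.inr (s + 1, i0)) z c).1 using 1
    simp only [crel, rf, cf, clo, rlo, r1, c1, c2, ← h, ite_smul, one_smul, zero_smul, sum_ite_eq,
      sum_ite_eq', mem_univ, if_true, sum_mul, smul_mul_assoc, mul_ite, mul_one, mul_zero, smul_ite,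
      smul_zero, neg_sub, W_succ, add_assoc, Nat.reduceAdd, al3]
    rw [sum_comm]
  · exact absurd h (by unfold al; omega)

lemma E2 (H : All Y S) (ρ σ : I) (h : c2 ρ = r1 σ) (a i0 : N) :
    ∑ b, ∑ c, rf σ b c • (crel Y ρ a b * Y (r2 σ) c i0) -
      ∑ i, ∑ i', cf ρ i i' • (Y (c1 ρ) a i * rrel Y σ i' i0) ∈ S := by
  rw [D2 Y ρ σ h]
  rcases σ with k | ⟨s, z⟩ <;> rcases ρ with k' | ⟨s', j⟩ <;> simp only [r1, c2] at h
  · obtain rfl : k' = k := by omega
    simp [rf, cf, clo, rlo, r2, c1]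
  · obtain ⟨s, rfl⟩ : ∃ s, s' = s + 1 := ⟨s' - 1, by unfold al at h; omega⟩
    obtain rfl : k = al s + 1 := by unfold al at *; omega
    convert neg_mem (H (.inr (s, a)) j i0).2 using 1
    simp only [rrel, rf, cf, clo, rlo, r1, r2, c1, ite_smul, one_smul, zero_smul, sum_ite_eq,
      sum_ite_eq', mem_univ, if_true, sum_mul, smul_mul_assoc, mul_ite, mul_one, mul_zero, smul_ite,
      smul_zero, neg_sub, W_succ, add_assoc, Nat.reduceAdd]
    rw [sum_comm]
  · obtain rfl : k' = al (s + 1) := by omega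
    convert (H (.inr (s, i0)) a z).1 using 1
    simp only [crel, rf, cf, clo, rlo, r2, c1, c2, ite_smul, one_smul, zero_smul, sum_ite_eq,
      mem_univ, if_true, mul_sum, mul_smul_comm, ite_mul, one_mul, zero_mul, smul_ite, smul_zero,
      sum_ite_irrel, sum_const_zero]
  · exact absurd h (by unfold al; omega)

lemma CC (H : All Y S) (s : ℕ) (a b c : N) :
    ∑ z, crel Y (.inr (s, z)) a b * Y (al (s + 3)) c z -
      ∑ x, Y (al (s + 1)) a x * crel Y (.inr (s + 1, x)) b c ∈ S := by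
  convert sub_mem (S.sum_mem (t := univ) fun j _ => S.smul_mem (W (s + 1) j b c)
    (H (.inl (al (s + 1))) a j).1)
    (S.sum_mem (t := univ) fun j _ => S.smul_mem (W s j a b) (H (.inl (al s + 1)) j c).1) using 1
  simp only [crel, cf, clo, c1, c2, ite_smul, one_smul, zero_smul, sum_ite_eq, sum_ite_eq',
    mem_univ, if_true, sum_mul, mul_sum, smul_mul_assoc, mul_smul_comm, smul_ite, smul_zero,
    W_succ, add_assoc, Nat.reduceAdd, al3, sub_mul, mul_sub, sum_sub_distrib, smul_sub, smul_sum,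
    mul_assoc]
  rw [sum3 fun x y z => W s z x y • (Y _ a x * (Y _ b y * Y _ c z)), sum_comm (f := fun z j =>
    W s j a b • (Y _ j z * Y _ c z)), sum_comm (f := fun x j => W s c j b • (Y _ a x * Y _ j x))]
  abel

lemma RR (H : All Y S) (s : ℕ) (i i' i'' : N) :
    ∑ x, rrel Y (.inr (s + 1, x)) i i' * Y (al s + 1) x i'' -
      ∑ z, Y (al (s + 2) + 1) z i * rrel Y (.inr (s, z)) i' i'' ∈ S := by
  convert sub_mem (S.sum_mem (t := univ) fun z _ => S.smul_mem (W s i'' i' z)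
    (H (.inl (al (s + 2))) i z).2)
    (S.sum_mem (t := univ) fun z _ => S.smul_mem (W (s + 1) i' i z) (H (.inl (al s + 1)) z i'').2)
    using 1
  simp only [rrel, rf, rlo, r1, r2, ite_smul, one_smul, zero_smul, sum_ite_eq, sum_ite_eq',
    mem_univ, if_true, sum_mul, mul_sum, smul_mul_assoc, mul_smul_comm, smul_ite, smul_zero,
    W_succ, add_assoc, Nat.reduceAdd, al3, sub_mul, mul_sub, sum_sub_distrib, smul_sub, smul_sum,
    mul_assoc]
  rw [sum3 fun z y x => W s x y z • (Y _ z i * (Y _ y i' * Y _ x i'')), sum_comm (f := fun x z =>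
    W s z i' i • (Y _ x z * Y _ x i'')), sum_comm (f := fun z j => W s i'' i' j • (Y _ z i * Y _ z j))]
  abel

end Pool.Agent.H.MP_8f6377_al
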