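import Mathlib

set_option autoImplicit false

namespace Pool.Agent.H.MP_8f6377_al

abbrev N := Fin 12

/-- the support of the tensor `w` -/
def W0 (a b c : N) : Bool := (144 * a.1 + 12 * b.1 + c.1) ∈ [57, 106, 128, 138, 214, 224, 255, 308,
  408, 442, 527, 542, 621, 694, 697, 853, 964, 1043, 1107, 1161, 1170, 1178, 1288, 1304,
  1313, 1408, 1464, 1495, 1563, 1587, 1618, 1624, 1645]

def Wb (r : ZMod 3) (a b c : N) : Bool :=
  if r = 0 then W0 a b c else if r = 1 then W0 c a b else W0 b c a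

def Ld (r : ZMod 3) : N → N × N :=
  if r = 0 then ![(11, 6), (9, 3), (10, 0), (9, 2), (10, 1), (11, 1),
    (8, 4), (8, 3), (11, 4), (9, 4), (10, 3), (5, 1)]
  else if r = 1 then ![(10, 3), (8, 2), (11, 7), (9, 4), (9, 0), (10, 1),
    (8, 1), (11, 3), (10, 0), (10, 4), (8, 0), (6, 0)]
  else ![(10, 2), (11, 5), (8, 2), (11, 0), (11, 3), (9, 1),
    (8, 1), (10, 4), (9, 0), (8, 0), (11, 2), (7, 2)]

lemma Wb_succ (r : ZMod 3) (a b c : N) : Wb (r + 1) a b c = Wb r c a b := by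
  fin_cases r <;> rfl

lemma F1 : ∀ r j, Wb r j (Ld r j).1 (Ld r j).2 := by decide +kernel

lemma F2 : ∀ r j i i', Wb r j i i' → (i, i') = Ld r j ∨
    12 * i.1 + i'.1 < 12 * (Ld r j).1.1 + (Ld r j).2.1 := by decide +kernel

lemma F3 : ∀ r r' j j', Ld r j = Ld r' j' → (r = r' ∧ j = j') ∨ (r ≠ r' ∧ (r = 1 ∨ r' = 1)) := by
  decide +kernel

lemma F4 : ∀ r j, (Ld r j).1 ≠ 0 ∧ (Ld r j).2 ≠ 11 := by decide +kernel

lemma F5 : ∀ r r' z x, (Ld r z).2 = (Ld r' x).1 → r' = r + 1 ∧ (Ld r z).1 = x ∧ (Ld r' x).2 = z ∧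
    (∀ z', z' ≠ z → 144 * (Ld r z').1.1 + 12 * (Ld r z').2.1 + z'.1 <
      144 * x.1 + 12 * (Ld r' x).1.1 + z.1) ∧
    ∀ x', x' ≠ x → 144 * x'.1 + 12 * (Ld r' x').1.1 + (Ld r' x').2.1 <
      144 * x.1 + 12 * (Ld r' x).1.1 + z.1 := by decide +kernel

lemma F6 : ∀ t, ∃ a b, ∀ j, Wb 0 j a b = decide (j = t) := by decide +kernel

lemma F7 : (∀ a b, Wb 0 a b 5 = decide ((b, a) = (1, 9))) ∧ (∀ c, Wb 0 0 0 c = false) ∧
    ∀ j, Ld 0 j ≠ (9, 1) := by decide +kernel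

end Pool.Agent.H.MP_8f6377_al
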